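import Pool.Agent.Helper13.MLF.Defs
import Pool.Agent.Helper79.MP.L1
import Pool.Agent.Helper22.LN.DEN

/-!
# MLF, block L1L: a branch point fixed by a Frobenius element at `v` gives a point over `k_v`
-/

set_option autoImplicit false

namespace Pool.Agent.MLF

open Polynomial IntermediateField NumberField IsDedekindDomain
open Pool.Agent.HG (Pr nm)
open Pool.Agent.LN (IsRam)
open Pool.Agent.ML (HasMu)
open Pool.Agent.Helper22.L (exists_gen)
open Pool.Agent.Helper22.LN (Emb odd_nonunit finite_odd)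
open Pool.Agent.MPF (ker_iff root_v)

/-! ## The residue field of a branch point -/

section gen

variable {k K0 E : Type} [Field k] [CharZero k] [Field K0] [Algebra k K0] [Field E] [Algebra k E]
  [Algebra.IsAlgebraic k E]

/-- a generator of the residue field of `P` which works for all embeddings -/
theorem gen_allL {n : ℕ} (hn : 2 ≤ n) (hF : VC.IsFunctionField k K0) (h : K0)
    (P : ValuationSubring K0) (hex : ∃ φ : P →+* E, Emb k n h P φ) :
    ∃ (a : P) (g : k[X]), g.Monic ∧ Irreducible g ∧ ∀ φ : P →+* E, Emb k n h P φ →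
      aeval (φ a) g = 0 ∧ ∀ x, φ x ∈ k⟮φ a⟯ := by
  obtain ⟨φ, hφ⟩ := hex
  have hk := hφ.1
  obtain ⟨a, ha⟩ : ∃ a : P, ∀ x : P, φ x ∈ k⟮φ a⟯ := by
    obtain ⟨h0, h1 | h1⟩ := odd_nonunit hn hφ.2.1
    · exact exists_gen hF P hk h0 h1 φ hφ.2.2
    · exact exists_gen hF P hk (inv_ne_zero h0) h1 φ hφ.2.2
  have hint : IsIntegral k (φ a) := (Algebra.IsAlgebraic.isAlgebraic (φ a)).isIntegral
  refine ⟨a, minpoly k (φ a), minpoly.monic hint, minpoly.irreducible hint, ?_⟩
  intro φ' hφ'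
  let a1 : Algebra k P := ((algebraMap k K0).codRestrict P.toSubring hk).toAlgebra
  let ψ : P →ₐ[k] E := { φ with commutes' := fun a => hφ.2.2 a _ rfl }
  let ψ' : P →ₐ[k] E := { φ' with commutes' := fun a => hφ'.2.2 a _ rfl }
  have hker : ∀ x : P, ψ x = 0 → ψ' x = 0 := fun x hx =>
    (ker_iff P hk φ' hφ'.2.2 x).2 ((ker_iff P hk φ hφ.2.2 x).1 hx)
  constructor
  · have h1 : ψ (aeval a (minpoly k (φ a))) = 0 := by
      rw [← aeval_algHom_apply]
      exact minpoly.aeval k (φ a)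
    have h2 := hker _ h1
    rw [← aeval_algHom_apply] at h2
    exact h2
  · intro x
    have h1 : φ x ∈ Algebra.adjoin k {φ a} := by
      rw [← IntermediateField.adjoin_simple_toSubalgebra_of_isAlgebraic hint.isAlgebraic]
      exact ha x
    rw [Algebra.adjoin_singleton_eq_range_aeval] at h1
    obtain ⟨q, hq⟩ := h1
    have h2 : ψ (x - aeval a q) = 0 := by
      rw [map_sub, ← aeval_algHom_apply, sub_eq_zero]
      exact hq.symm
    have h3 := hker _ h2
    rw [map_sub, ← aeval_algHom_apply, sub_eq_zero] at h3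
    have h4 : φ' x = aeval (φ' a) q := h3
    rw [h4]
    refine IntermediateField.algebra_adjoin_le_adjoin k {φ' a} ?_
    rw [Algebra.adjoin_singleton_eq_range_aeval]
    exact ⟨q, rfl⟩

end gen

/-! ## The block -/

theorem phi_eqL {k K0 E : Type} [Field k] [Field K0] [Field E] [Algebra k K0] [Algebra k E] {n : ℕ}
    {h : K0} {b b' : Pool.Agent.ML.GBr k E n h} (hb : b' = b) (x : K0) (hx' : x ∈ b'.P)
    (hx : x ∈ b.P) : b'.φ ⟨x, hx'⟩ = b.φ ⟨x, hx⟩ := by
  subst hb
  rfl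

/-- **BLOCK L1L**, from the criterion. -/
theorem l1L_of : StmtLPL → StmtL1L := by
  classical
  intro hLP k K₀ _ _ _ _ ℓ hℓ hμ h hG
  have hF := hG.ff
  have h2 : 2 ≤ ℓ := hℓ.two_le
  have hh : h ≠ 0 := by
    rintro rfl
    refine hG.irr 0 (by rw [map_zero, zero_pow hℓ.ne_zero]) 1 one_pos (by omega) ?_
    rw [pow_one]
    exact zero_mem _
  have hfin := finite_odd h2 hF h
  have hch : ∀ P : ValuationSubring K₀, ∃ Bad : Set (Pr k), Bad.Finite ∧
      ((∃ φ : P →+* AlgebraicClosure k, Emb k ℓ h P φ) → ∃ (a : P) (g : k[X]), g.Monic ∧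
        Irreducible g ∧
        (∀ φ : P →+* AlgebraicClosure k, Emb k ℓ h P φ → aeval (φ a) g = 0 ∧ ∀ x, φ x ∈ k⟮φ a⟯) ∧
        ∀ v ∉ Bad, ∀ (O : ValuationSubring (AlgebraicClosure k)) (θ : AlgebraicClosure k),
          Pool.Agent.L.OverV v O → aeval θ g = 0 → (θ ∈ O → O.valuation (θ - θ ^ nm v) < 1) →
          ∃ z : v.adicCompletion k, aeval z g = 0) := by
    intro P
    by_cases hex : ∃ φ : P →+* AlgebraicClosure k, Emb k ℓ h P φ
    · obtain ⟨a, g, hg, hirr, hall⟩ := gen_allL h2 hF h P hex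
      obtain ⟨Bad, hBad, hr⟩ := root_v (E := AlgebraicClosure k) g hg hirr.separable
      exact ⟨Bad, hBad, fun _ => ⟨a, g, hg, hirr, hall, hr⟩⟩
    · exact ⟨∅, Set.finite_empty, fun h => absurd h hex⟩
  choose Bad hBad hP using hch
  refine ⟨⋃ P ∈ hfin.toFinset, Bad P, Set.Finite.biUnion (Finset.finite_toSet _) fun P _ => hBad P, ?_⟩
  intro v hv c hc ⟨O, F, p, f, hD, b, hb⟩
  rw [hLP k K₀ (v.adicCompletion k) ℓ hℓ hμ h c hh hc]
  have hemb : Emb k ℓ h b.P b.φ := ⟨b.const, b.ram, b.emb⟩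
  have hvP : v ∉ Bad b.P := by
    intro hcon
    refine hv (Set.mem_biUnion ?_ hcon)
    rw [Finset.mem_coe, Set.Finite.mem_toFinset]
    exact ⟨b.const, b.ram⟩
  obtain ⟨a, g, hg, hirr, hall, hr⟩ := hP b.P ⟨b.φ, hemb⟩
  obtain ⟨hroot, hgen⟩ := hall b.φ hemb
  have hfix : F (b.φ a) = b.φ a := phi_eqL hb a a.2 a.2
  obtain ⟨z, hz⟩ := hr v hvP O (b.φ a) hD.above hroot (fun hθ => by
    have h1 := hD.frob.frob (b.φ a) hθ
    rw [hD.norm]
    change O.valuation (F (b.φ a) - _) < 1 at h1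
    rwa [hfix] at h1)
  have hmin : minpoly k (b.φ a) = g := (minpoly.eq_of_irreducible_of_monic hirr hroot hg).symm
  have hint : IsIntegral k (b.φ a) := ⟨g, hg, by rw [← aeval_def]; exact hroot⟩
  let ι : k⟮b.φ a⟯ →ₐ[k] v.adicCompletion k := (IntermediateField.adjoin.powerBasis hint).lift z (by
    rw [IntermediateField.adjoin.powerBasis_gen, IntermediateField.minpoly_gen, hmin]
    exact hz)
  let ψ : b.P →+* v.adicCompletion k := (ι : k⟮b.φ a⟯ →+* v.adicCompletion k).comp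
    (b.φ.codRestrict k⟮b.φ a⟯ hgen)
  refine ⟨b.P, ψ, ?_, ?_, Or.inl b.ram⟩
  · intro x
    refine ⟨b.const x, ?_⟩
    change ι ⟨b.φ ⟨algebraMap k K₀ x, b.const x⟩, _⟩ = _
    rw [← ι.commutes]
    congr 1
    exact Subtype.ext (b.emb x _ rfl)
  · intro x
    by_cases h0 : b.φ x = 0
    · refine Or.inl ?_
      change ι ⟨b.φ x, _⟩ = 0
      have : (⟨b.φ x, hgen x⟩ : k⟮b.φ a⟯) = 0 := Subtype.ext h0
      rw [this, map_zero]
    · refine Or.inr ?_
      have h1 : (x : K₀) ∉ b.P.nonunits := fun hx => h0 ((ker_iff b.P b.const b.φ b.emb x).2 hx)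
      by_contra hcon
      exact h1 ((ValuationSubring.mem_nonunits_iff_or _).2 (Or.inr hcon))

end Pool.Agent.MLF
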